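import Pool.Agent.Helper99.PG.Goals

/-!
# Project C2 (MP_2b0227_gt): packet PG-CR (composite response)
-/

set_option autoImplicit false

namespace Pool.Agent.Helper25.PG

open Pool.Agent.Helper99.PG

theorem single_sigma {V : Type} [DecidableEq V] {ι : V → Type} [∀ v, DecidableEq (ι v)]
    (v : V) (i j : ι v) (c : ℝ) :
    (Pi.single (⟨v, j⟩ : Σ v, ι v) c : (Σ v, ι v) → ℝ) ⟨v, i⟩ =
      (Pi.single j c : ι v → ℝ) i := by
  by_cases h : i = j
  · subst h
    rw [Pi.single_eq_same, Pi.single_eq_same]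
  · rw [Pi.single_eq_of_ne h, Pi.single_eq_of_ne]
    intro e
    exact h (eq_of_heq (Sigma.mk.inj e).2)

theorem single_sigma_ne {V : Type} [DecidableEq V] {ι : V → Type} [∀ v, DecidableEq (ι v)]
    (v w : V) (h : w ≠ v) (i : ι v) (j : ι w) (c : ℝ) :
    (Pi.single (⟨w, j⟩ : Σ v, ι v) c : (Σ v, ι v) → ℝ) ⟨v, i⟩ = 0 := by
  rw [Pi.single_eq_of_ne]
  intro e
  exact h (Sigma.mk.inj e).1.symm

theorem block_mulVec {V : Type} [Fintype V] [DecidableEq V] {ι : V → Type}
    [∀ v, Fintype (ι v)] [∀ v, DecidableEq (ι v)] (A : ∀ v, Matrix (ι v) (ι v) ℝ)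
    (h : (Σ v, ι v) → ℝ) (v : V) (i : ι v) :
    (Matrix.blockDiagonal' A).mulVec h ⟨v, i⟩ = (A v).mulVec (fun j => h ⟨v, j⟩) i := by
  rw [Matrix.mulVec, dotProduct, Fintype.sum_sigma, Finset.sum_eq_single v]
  · rw [Matrix.mulVec, dotProduct]
    refine Finset.sum_congr rfl fun j _ => ?_
    rw [Matrix.blockDiagonal'_apply_eq]
  · intro w _ hw
    refine Finset.sum_eq_zero fun j _ => ?_
    rw [Matrix.blockDiagonal'_apply_ne A i j (Ne.symm hw), zero_mul]
  · intro hv
    exact absurd (Finset.mem_univ v) hv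

theorem compResp : GoalCompResp := by
  intro V _ _ ι _ _ up dn A s1 s2 r1 r2 c1 c2 L R b x hN hbR s t y hy
  choose hv hv1 hv2 hv3 using fun v => (hN v).2 (pv y true s (up v)) (pv y false t (dn v))
  have e1 : ∀ v, hv v (r1 v) = y (v, true) := fun v =>
    mul_left_cancel₀ (hbR v) ((hv2 v).trans (hy v).1.symm)
  have e2 : ∀ v, hv v (r2 v) = y (v, false) := fun v =>
    mul_left_cancel₀ (hbR v) ((hv3 v).trans (hy v).2.symm)
  refine ⟨fun p => hv p.1 p.2, ?_, e1, e2⟩
  have hB : (Matrix.blockDiagonal' A).mulVec (fun p : Σ v, ι v => hv p.1 p.2) =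
      ∑ v, Pi.single (⟨v, s1 v⟩ : Σ v, ι v) (c1 v * pv y true s (up v)) +
        ∑ v, Pi.single (⟨v, s2 v⟩ : Σ v, ι v) (c2 v * pv y false t (dn v)) := by
    funext p
    obtain ⟨v, i⟩ := p
    rw [block_mulVec, Pi.add_apply, Finset.sum_apply, Finset.sum_apply,
      Finset.sum_eq_single v (fun w _ hw => single_sigma_ne v w hw i _ _)
        (fun h => absurd (Finset.mem_univ v) h),
      Finset.sum_eq_single v (fun w _ hw => single_sigma_ne v w hw i _ _)
        (fun h => absurd (Finset.mem_univ v) h), single_sigma, single_sigma]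
    change (A v).mulVec (hv v) i = _
    rw [hv1 v]
    rfl
  have key : ∀ (c z : ℝ) (q : Σ v, ι v) (o : Option V) (r : ∀ v, ι v) (d : Bool),
      (∀ v, hv v (r v) = y (v, d)) →
      (Pi.single q (c * pv y d z o) : (Σ v, ι v) → ℝ) -
        (o.elim (0 : Matrix (Σ v, ι v) (Σ v, ι v) ℝ)
          (fun w => Matrix.single q ⟨w, r w⟩ c)).mulVec (fun p => hv p.1 p.2) =
      if o = none then Pi.single q (c * z) else 0 := by
    intro c z q o r d hr
    cases o with
    | none =>
      rw [if_pos rfl]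
      change (Pi.single q (c * z) : (Σ v, ι v) → ℝ) -
        (0 : Matrix (Σ v, ι v) (Σ v, ι v) ℝ).mulVec _ = _
      rw [Matrix.zero_mulVec, sub_zero]
    | some w =>
      rw [if_neg (Option.some_ne_none w)]
      change (Pi.single q (c * y (w, d)) : (Σ v, ι v) → ℝ) -
        (Matrix.single q (⟨w, r w⟩ : Σ v, ι v) c).mulVec _ = _
      rw [sub_eq_zero]
      funext p
      rw [Matrix.mulVec, dotProduct, Finset.sum_eq_single (⟨w, r w⟩ : Σ v, ι v)]
      · by_cases hp : p = q
        · subst hp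
          rw [Pi.single_eq_same, Matrix.single_apply_same]
          change _ = c * hv w (r w)
          rw [hr]
        · rw [Pi.single_eq_of_ne hp, Matrix.single_apply_of_row_ne (Ne.symm hp), zero_mul]
      · intro p' _ hp'
        rw [Matrix.single_apply_of_col_ne _ _ (Ne.symm hp'), zero_mul]
      · intro h
        exact absurd (Finset.mem_univ _) h
  have hsum : ∀ (f : V → Matrix (Σ v, ι v) (Σ v, ι v) ℝ) (g : (Σ v, ι v) → ℝ),
      (∑ v, f v).mulVec g = ∑ v, (f v).mulVec g := by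
    intro f g
    exact map_sum (Matrix.mulVec.addMonoidHomLeft g) f Finset.univ
  rw [compMat, Matrix.sub_mulVec, Matrix.sub_mulVec, hB, hsum, hsum, add_sub_right_comm,
    add_sub_assoc, ← Finset.sum_sub_distrib, ← Finset.sum_sub_distrib]
  congr 1
  · exact Finset.sum_congr rfl fun v _ => key (c1 v) s ⟨v, s1 v⟩ (up v) r1 true e1
  · exact Finset.sum_congr rfl fun v _ => key (c2 v) t ⟨v, s2 v⟩ (dn v) r2 false e2

end Pool.Agent.Helper25.PG
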